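import Mathlib

set_option autoImplicit false

universe u

open Cardinal Set

namespace Pool.Agent.Results.MP_88803c_co.IdealAntichains

/-- `P` belongs to the class `D(κ)`: it contains no antichain of cardinality `κ`. -/
def InD (κ : Cardinal.{u}) (P : Type u) [PartialOrder P] : Prop :=
  ¬ ∃ A : Set P, IsAntichain (· ≤ ·) A ∧ #A = κ

/-- The poset `I(P)` of ideals of `P`: the initial and up-directed subsets of `P`, ordered by
inclusion (the order of a subtype of `Set P`). -/
abbrev Ideals (P : Type u) [PartialOrder P] : Type u :=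
  {J : Set P // IsLowerSet J ∧ DirectedOn (· ≤ ·) J}

/-- A poset without an antichain of size `#T` can be cut into few pieces, each of whose subsets of
size at most `#T` is bounded above. -/
theorem pieces (T : Type u) [LinearOrder T] [WellFoundedLT T] [Nonempty T] (Q : Type u)
    [PartialOrder Q] [Nonempty Q] (hQ : ∀ f : T → Q, ∃ i j, i ≠ j ∧ f i ≤ f j) :
    ∃ pc : Q → (Σ i : T, (Iic i → T)), ∀ S : Set Q, #S ≤ #T →
      (∀ x ∈ S, ∀ y ∈ S, pc x = pc y) → ∃ q, ∀ x ∈ S, x ≤ q := by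
  classical
  let W : Set Q → Set Q := fun Y => {x | ∀ y ∈ Y, ¬ x ≤ y ∧ ¬ y ≤ x}
  let Good : Set Q → Prop := fun Y => ∀ B : T → Q, (∀ t, B t ∈ W Y) → ∃ q ∈ W Y, ∀ t, B t ≤ q
  have he : ∀ Y, ∃ B : T → Q, ¬ Good Y → (∀ t, B t ∈ W Y) ∧ ∀ q ∈ W Y, ∃ t, ¬ B t ≤ q := by
    intro Y
    by_cases h : Good Y
    · exact ⟨fun _ => Classical.arbitrary Q, fun h' => absurd h h'⟩
    · have h' := h
      simp only [Good] at h'
      push Not at h'
      obtain ⟨B, hB1, hB2⟩ := h'
      exact ⟨B, fun _ => ⟨hB1, hB2⟩⟩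
  choose e he using he
  let A : (T → T) → T → Q := fun c => (wellFounded_lt (α := T)).fix
    (fun i rec => e {q | ∃ j, ∃ h : j < i, rec j h = q} (c i))
  let Y : (T → T) → T → Set Q := fun c i => {q | ∃ j, j < i ∧ A c j = q}
  have hA : ∀ c i, A c i = e (Y c i) (c i) := by
    intro c i
    have h1 : A c i = e {q | ∃ j, ∃ _ : j < i, A c j = q} (c i) :=
      (wellFounded_lt (α := T)).fix_eq _ i
    rw [h1]
    congr 1
    congr 1
    ext q
    simp only [exists_prop]
  have hAcongr : ∀ c c' : T → T, ∀ i, (∀ j ≤ i, c j = c' j) → A c i = A c' i := by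
    intro c c' i
    induction i using (wellFounded_lt (α := T)).induction with
    | _ i ih =>
      intro h
      have hY : Y c i = Y c' i := by
        ext q
        constructor
        · rintro ⟨j, hj, rfl⟩
          exact ⟨j, hj, (ih j hj (fun k hk => h k (hk.trans hj.le))).symm⟩
        · rintro ⟨j, hj, rfl⟩
          exact ⟨j, hj, ih j hj (fun k hk => h k (hk.trans hj.le))⟩
      rw [hA, hA, h i le_rfl, hY]
  have hYcongr : ∀ c c' : T → T, ∀ i, (∀ j ≤ i, c j = c' j) → Y c i = Y c' i := by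
    intro c c' i h
    ext q
    constructor
    · rintro ⟨j, hj, rfl⟩
      exact ⟨j, hj, (hAcongr c c' j (fun k hk => h k (hk.trans hj.le))).symm⟩
    · rintro ⟨j, hj, rfl⟩
      exact ⟨j, hj, hAcongr c c' j (fun k hk => h k (hk.trans hj.le))⟩
  have hex : ∀ x : Q, ∃ (c : T → T) (i : T),
      x ∈ W (Y c i) ∧ (Good (Y c i) ∨ x ≤ A c i) := by
    intro x
    let τ : Set Q → T := fun Z => if h : ∃ t, ¬ e Z t ≤ x then h.choose else Classical.arbitrary T
    have hτ : ∀ Z, (∃ t, ¬ e Z t ≤ x) → ¬ e Z (τ Z) ≤ x := by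
      intro Z h
      simp only [τ, dif_pos h]
      exact h.choose_spec
    let b : T → Q := (wellFounded_lt (α := T)).fix
      (fun i rec => e {q | ∃ j, ∃ h : j < i, rec j h = q} (τ {q | ∃ j, ∃ h : j < i, rec j h = q}))
    let Z : T → Set Q := fun i => {q | ∃ j, j < i ∧ b j = q}
    have hb : ∀ i, b i = e (Z i) (τ (Z i)) := by
      intro i
      have h1 : b i = e {q | ∃ j, ∃ _ : j < i, b j = q} (τ {q | ∃ j, ∃ _ : j < i, b j = q}) :=
        (wellFounded_lt (α := T)).fix_eq _ i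
      rw [h1]
      simp only [exists_prop, Z]
    let c : T → T := fun i => τ (Z i)
    have hAb : ∀ i, A c i = b i := by
      intro i
      induction i using (wellFounded_lt (α := T)).induction with
      | _ i ih =>
        have h1 : Y c i = Z i := by
          ext q
          constructor
          · rintro ⟨j, hj, rfl⟩
            exact ⟨j, hj, (ih j hj).symm⟩
          · rintro ⟨j, hj, rfl⟩
            exact ⟨j, hj, ih j hj⟩
        rw [hA, hb, h1]
    have hYZ : ∀ i, Y c i = Z i := by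
      intro i
      ext q
      constructor
      · rintro ⟨j, hj, rfl⟩
        exact ⟨j, hj, (hAb j).symm⟩
      · rintro ⟨j, hj, rfl⟩
        exact ⟨j, hj, hAb j⟩
    by_contra hcon
    push Not at hcon
    have hcon' : ∀ i, x ∈ W (Z i) → ¬ Good (Z i) ∧ ¬ x ≤ b i := by
      intro i hx
      have h1 := hcon c i
      rw [hYZ i, hAb i] at h1
      exact h1 hx
    have hinc : ∀ i, ¬ x ≤ b i ∧ ¬ b i ≤ x := by
      intro i
      induction i using (wellFounded_lt (α := T)).induction with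
      | _ i ih =>
        have hx : x ∈ W (Z i) := by
          rintro y ⟨j, hj, rfl⟩
          exact ih j hj
        obtain ⟨h1, h2⟩ := hcon' i hx
        refine ⟨h2, ?_⟩
        rw [hb i]
        exact hτ _ ((he (Z i) h1).2 x hx)
    have hW : ∀ i, b i ∈ W (Z i) := by
      intro i
      have hx : x ∈ W (Z i) := by
        rintro y ⟨j, _, rfl⟩
        exact hinc j
      obtain ⟨h1, _⟩ := hcon' i hx
      rw [hb i]
      exact (he (Z i) h1).1 _
    obtain ⟨i, j, hij, hle⟩ := hQ b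
    rcases lt_or_gt_of_ne hij with h | h
    · exact (hW j (b i) ⟨i, h, rfl⟩).2 hle
    · exact (hW i (b j) ⟨j, h, rfl⟩).1 hle
  choose c i hci using hex
  refine ⟨fun x => ⟨i x, fun j => c x j.1⟩, ?_⟩
  intro S hS hpc
  rcases S.eq_empty_or_nonempty with rfl | ⟨x0, hx0⟩
  · exact ⟨Classical.arbitrary Q, by simp⟩
  have h1 : ∀ x ∈ S, i x = i x0 ∧ ∀ j ≤ i x0, c x j = c x0 j := by
    intro x hx
    have h2 := hpc x hx x0 hx0
    have h3 : i x = i x0 := congrArg Sigma.fst h2
    refine ⟨h3, ?_⟩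
    intro j hj
    have h4 : ∀ (s s' : Σ i : T, (Iic i → T)), s = s' → ∀ (hj : j ≤ s.1) (hj' : j ≤ s'.1),
        s.2 ⟨j, hj⟩ = s'.2 ⟨j, hj'⟩ := by
      rintro s s' rfl hj hj'
      rfl
    exact h4 _ _ h2 (by show j ≤ i x; rw [h3]; exact hj) hj
  have hY : ∀ x ∈ S, Y (c x) (i x) = Y (c x0) (i x0) := by
    intro x hx
    rw [(h1 x hx).1]
    exact hYcongr _ _ _ (h1 x hx).2
  have hAx : ∀ x ∈ S, A (c x) (i x) = A (c x0) (i x0) := by
    intro x hx
    rw [(h1 x hx).1]
    exact hAcongr _ _ _ (h1 x hx).2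
  by_cases hg : Good (Y (c x0) (i x0))
  · have hne : Nonempty S := ⟨⟨x0, hx0⟩⟩
    obtain ⟨g, hg'⟩ : ∃ g : T → S, Function.Surjective g := by
      rw [Cardinal.le_def] at hS
      obtain ⟨φ⟩ := hS
      exact ⟨Function.invFun φ, Function.invFun_surjective φ.injective⟩
    obtain ⟨q, _, hq⟩ := hg (fun t => (g t).1) (by
      intro t
      have := (hci (g t).1).1
      rwa [hY _ (g t).2] at this)
    refine ⟨q, ?_⟩
    intro x hx
    obtain ⟨t, ht⟩ := hg' ⟨x, hx⟩
    have := hq t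
    rwa [ht] at this
  · refine ⟨A (c x0) (i x0), ?_⟩
    intro x hx
    rcases (hci x).2 with h | h
    · rw [hY x hx] at h
      exact absurd h hg
    · rwa [hAx x hx] at h

/-- A version of the Erdős–Rado theorem: existence of long end-homogeneous sequences. -/
theorem end_homogeneous {Λ C S : Type u} [LinearOrder S] [WellFoundedLT S] (ν : Cardinal.{u})
    (hν : ℵ₀ ≤ ν) (hS : #S ≤ Order.succ ν) (hSi : ∀ i : S, #(Iio i) ≤ ν) (hC : #C ≤ ν)
    (hΛ : 2 ^ ν < #Λ) (f : Λ → Λ → C) :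
    ∃ (b : S → Λ) (g : S → C), ∀ j i, j < i → b j ≠ b i ∧ f (b j) (b i) = g j := by
  classical
  have hne : Nonempty Λ := by
    rw [← mk_ne_zero_iff]
    exact (bot_le.trans_lt hΛ).ne'
  let pick : Set Λ → Λ := fun Z => if h : Z.Nonempty then h.choose else Classical.arbitrary Λ
  have hpick : ∀ Z : Set Λ, Z.Nonempty → pick Z ∈ Z := by
    intro Z h
    simp only [pick, dif_pos h]
    exact h.choose_spec
  let b : Λ → S → Λ := fun δ => (wellFounded_lt (α := S)).fix
    (fun i rec => pick {α | ∀ j, ∀ h : j < i, α ≠ rec j h ∧ f (rec j h) α = f (rec j h) δ})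
  let Z : Λ → S → Set Λ := fun δ i =>
    {α | ∀ j, j < i → α ≠ b δ j ∧ f (b δ j) α = f (b δ j) δ}
  have hb : ∀ δ i, b δ i = pick (Z δ i) := by
    intro δ i
    exact (wellFounded_lt (α := S)).fix_eq _ i
  have hbcongr : ∀ δ δ' : Λ, ∀ i : S, (∀ j, j < i → f (b δ j) δ = f (b δ' j) δ') →
      b δ i = b δ' i := by
    intro δ δ' i
    induction i using (wellFounded_lt (α := S)).induction with
    | _ i ih =>
      intro h
      rw [hb, hb]
      congr 1
      have h1 : ∀ j, j < i → b δ j = b δ' j :=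
        fun j hj => ih j hj (fun k hk => h k (hk.trans hj))
      ext α
      constructor
      · intro hα j hj
        have := hα j hj
        rw [h j hj] at this
        rwa [h1 j hj] at this
      · intro hα j hj
        have := hα j hj
        rw [← h j hj] at this
        rwa [← h1 j hj] at this
  -- some `δ` is never reached
  have hδ : ∃ δ : Λ, ∀ i, b δ i ≠ δ := by
    by_contra hcon
    push Not at hcon
    choose i hi using hcon
    have hinj : Function.Injective
        (fun δ : Λ => (⟨i δ, fun j => f (b δ j.1) δ⟩ : Σ i : S, (Iio i → C))) := by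
      intro δ δ' h
      have h3 : i δ = i δ' := congrArg Sigma.fst h
      have h4 : ∀ (s s' : Σ i : S, (Iio i → C)), s = s' → ∀ (j : S) (hj : j < s.1)
          (hj' : j < s'.1), s.2 ⟨j, hj⟩ = s'.2 ⟨j, hj'⟩ := by
        rintro s s' rfl j hj hj'
        rfl
      have h5 : ∀ j, j < i δ' → f (b δ j) δ = f (b δ' j) δ' := by
        intro j hj
        exact h4 _ _ h j (by show j < i δ; rw [h3]; exact hj) hj
      have h6 := hbcongr δ δ' (i δ') h5
      rw [hi δ', ← h3, hi δ] at h6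
      exact h6
    have h1 := mk_le_of_injective hinj
    have h2 : #(Σ i : S, (Iio i → C)) ≤ 2 ^ ν := by
      rw [mk_sigma]
      refine (sum_le_sum _ (fun _ => (2 : Cardinal.{u}) ^ ν) (fun i => ?_)).trans ?_
      · rw [← power_def]
        calc #C ^ #(Iio i) ≤ ν ^ ν := by
              refine (power_le_power_right hC).trans (power_le_power_left ?_ (hSi i))
              exact (aleph0_pos.trans_le hν).ne'
          _ = 2 ^ ν := power_self_eq hν
      · rw [sum_const']
        have h3 : ℵ₀ ≤ (2 : Cardinal.{u}) ^ ν := hν.trans (cantor ν).le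
        refine (mul_le_mul' (hS.trans (Order.succ_le_of_lt (cantor ν))) le_rfl).trans ?_
        exact (mul_eq_self h3).le
    exact absurd (h1.trans h2) (not_le.mpr hΛ)
  obtain ⟨δ, hδ⟩ := hδ
  refine ⟨b δ, fun j => f (b δ j) δ, ?_⟩
  intro j i hji
  have h1 : δ ∈ Z δ i := fun k _ => ⟨(hδ k).symm, rfl⟩
  have h2 := hpick _ ⟨δ, h1⟩
  rw [← hb δ i] at h2
  exact ⟨(h2 j hji).1.symm, (h2 j hji).2⟩

/-- Main bound, for infinite `μ`. -/
theorem main (μ : Cardinal.{u}) (hμ : ℵ₀ ≤ μ) (P : Type u) [PartialOrder P] (hP : InD μ P) :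
    InD (Order.succ (2 ^ (μ ^< μ))) (Ideals P) := by
  classical
  rintro ⟨𝒜, hanti, hcard⟩
  obtain ⟨T, hT⟩ : ∃ T : Type u, #T = μ := ⟨μ.out, mk_out μ⟩
  obtain ⟨_, _, hTo⟩ := exists_ord_eq_type_lt T
  have hTne : Nonempty T := by
    rw [← mk_ne_zero_iff, hT]
    exact (aleph0_pos.trans_le hμ).ne'
  set ν : Cardinal.{u} := μ ^< μ with hνdef
  have h1μ : (1 : Cardinal.{u}) < μ := one_lt_aleph0.trans_le hμ
  have hμν : μ ≤ ν := by
    have := le_powerlt μ h1μ
    simpa using this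
  have hν : ℵ₀ ≤ ν := hμ.trans hμν
  -- the number of labels
  have hD : #(Σ i : T, (Iic i → T)) ≤ ν := by
    rw [mk_sigma]
    refine (sum_le_sum _ (fun _ => ν) (fun i => ?_)).trans ?_
    · rw [← power_def, hT]
      refine le_powerlt μ ?_
      have h4 : Set.Iic i = insert i (Set.Iio i) := by
        ext x; simp [le_iff_eq_or_lt]
      rw [h4]
      refine mk_insert_le.trans_lt ?_
      have h5 := mk_Iio_lt i hTo
      rw [hT] at h5
      exact add_lt_of_lt hμ h5 h1μ
    · rw [sum_const', hT]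
      exact (mul_le_mul' hμν le_rfl).trans (mul_eq_self hν).le
  -- no antichain indexed by `T`
  have hP' : ∀ f : T → P, ∃ i j, i ≠ j ∧ f i ≤ f j := by
    intro f
    by_contra hcon
    push Not at hcon
    have hinj : Function.Injective f := by
      intro i j hij
      by_contra hne
      exact hcon i j hne hij.le
    apply hP
    refine ⟨Set.range f, ?_, ?_⟩
    · rintro _ ⟨i, rfl⟩ _ ⟨j, rfl⟩ hne hle
      exact hcon i j (fun h => hne (by rw [h])) hle
    · rw [mk_range_eq f hinj, hT]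
  -- the ideals of the antichain
  let J : 𝒜 → Set P := fun a => a.1.1
  have hJlow : ∀ a, IsLowerSet (J a) := fun a => a.1.2.1
  have hJdir : ∀ a, DirectedOn (· ≤ ·) (J a) := fun a => a.1.2.2
  have hJ : ∀ a b : 𝒜, a ≠ b → ∃ p, p ∈ J a ∧ p ∉ J b := by
    intro a b hab
    have h1 : ¬ (a.1 ≤ b.1) := hanti a.2 b.2 (fun h => hab (Subtype.ext h))
    exact Set.not_subset.mp h1
  have h𝒜 : 2 ^ ν < #𝒜 := by rw [hcard]; exact Order.lt_succ _
  have hne𝒜 : ∃ a b : 𝒜, a ≠ b := by
    have h1 : (1 : Cardinal.{u}) < #𝒜 :=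
      lt_of_lt_of_le (one_lt_aleph0.trans_le hν) ((cantor ν).le.trans h𝒜.le)
    rw [one_lt_iff_nontrivial] at h1
    exact exists_pair_ne _
  have hJne : ∀ a : 𝒜, (J a).Nonempty := by
    intro a
    obtain ⟨x, y, hxy⟩ := hne𝒜
    by_cases h : a = x
    · obtain ⟨p, hp, _⟩ := hJ a y (h ▸ hxy)
      exact ⟨p, hp⟩
    · obtain ⟨p, hp, _⟩ := hJ a x h
      exact ⟨p, hp⟩
  -- labels inside every ideal
  have hpieces : ∀ a : 𝒜, ∃ pc : J a → (Σ i : T, (Iic i → T)), ∀ S : Set (J a), #S ≤ #T →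
      (∀ x ∈ S, ∀ y ∈ S, pc x = pc y) → ∃ q, ∀ x ∈ S, x ≤ q := by
    intro a
    have : Nonempty (J a) := (hJne a).to_subtype
    refine pieces T (J a) ?_
    intro f
    obtain ⟨i, j, hij, hle⟩ := hP' (fun t => (f t).1)
    exact ⟨i, j, hij, hle⟩
  choose pc hpc using hpieces
  have hp : ∀ a b : 𝒜, ∃ p : J a, a ≠ b → p.1 ∉ J b := by
    intro a b
    by_cases h : a = b
    · obtain ⟨p, hp⟩ := hJne a
      exact ⟨⟨p, hp⟩, fun h' => absurd h h'⟩
    · obtain ⟨p, hp1, hp2⟩ := hJ a b h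
      exact ⟨⟨p, hp1⟩, fun _ => hp2⟩
  choose p hp using hp
  -- partition theorem
  obtain ⟨S, hS⟩ : ∃ S : Type u, #S = Order.succ ν := ⟨(Order.succ ν).out, mk_out _⟩
  obtain ⟨_, _, hSo⟩ := exists_ord_eq_type_lt S
  have hSi : ∀ i : S, #(Iio i) ≤ ν := by
    intro i
    have := mk_Iio_lt i hSo
    rw [hS] at this
    exact Order.lt_succ_iff.mp this
  have hC : #((Σ i : T, (Iic i → T)) × (Σ i : T, (Iic i → T))) ≤ ν := by
    rw [mk_prod, lift_id]
    exact (mul_le_mul' hD hD).trans (mul_eq_self hν).le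
  obtain ⟨b, g, hbg⟩ := end_homogeneous (S := S) ν hν hS.le hSi hC h𝒜
    (fun a b => (pc a (p a b), pc b (p b a)))
  -- pigeonhole
  obtain ⟨γ, hγ⟩ : ∃ γ, μ ≤ #(g ⁻¹' {γ}) := by
    by_contra hcon
    push Not at hcon
    have h1 : (Set.univ : Set S) ⊆ ⋃ γ, g ⁻¹' {γ} := by
      intro s _
      exact Set.mem_iUnion.mpr ⟨g s, rfl⟩
    have h2 : #S ≤ ν := by
      rw [← mk_univ]
      refine (mk_le_mk_of_subset h1).trans ((mk_iUnion_le _).trans ?_)
      refine (mul_le_mul' hC (ciSup_le' (a := ν) ?_)).trans (mul_eq_self hν).le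
      intro γ
      exact (hcon γ).le.trans hμν
    rw [hS] at h2
    exact absurd (Order.lt_succ ν) (not_lt.mpr h2)
  obtain ⟨ι⟩ : Nonempty (T ↪ g ⁻¹' {γ}) := by
    rwa [← Cardinal.le_def, hT]
  let a : T → 𝒜 := fun t => b (ι t).1
  have hιne : ∀ t t', t ≠ t' → (ι t).1 ≠ (ι t').1 := by
    intro t t' h h'
    exact h (ι.injective (Subtype.ext h'))
  have hane : ∀ t t', t ≠ t' → a t ≠ a t' := by
    intro t t' h
    rcases lt_or_gt_of_ne (hιne t t' h) with h' | h'
    · exact (hbg _ _ h').1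
    · exact (hbg _ _ h').1.symm
  -- labels are constant
  have hlab1 : ∀ t t', (ι t).1 < (ι t').1 → pc (a t) (p (a t) (a t')) = γ.1 := by
    intro t t' h
    have h1 := (hbg _ _ h).2
    have h2 : g (ι t).1 = γ := (ι t).2
    rw [h2] at h1
    exact congrArg Prod.fst h1
  have hlab2 : ∀ t t', (ι t').1 < (ι t).1 → pc (a t) (p (a t) (a t')) = γ.2 := by
    intro t t' h
    have h1 := (hbg _ _ h).2
    have h2 : g (ι t').1 = γ := (ι t').2
    rw [h2] at h1
    exact congrArg Prod.snd h1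
  -- bounds
  have hr : ∀ t : T, ∃ r : P, r ∈ J (a t) ∧ ∀ t', t ≠ t' → r ∉ J (a t') := by
    intro t
    obtain ⟨q1, hq1⟩ := hpc (a t) ((fun t' => p (a t) (a t')) '' {t' | (ι t).1 < (ι t').1})
      (mk_image_le.trans (mk_subtype_le _)) (by
        rintro _ ⟨t1, h1, rfl⟩ _ ⟨t2, h2, rfl⟩
        rw [hlab1 t t1 h1, hlab1 t t2 h2])
    obtain ⟨q2, hq2⟩ := hpc (a t) ((fun t' => p (a t) (a t')) '' {t' | (ι t').1 < (ι t).1})
      (mk_image_le.trans (mk_subtype_le _)) (by
        rintro _ ⟨t1, h1, rfl⟩ _ ⟨t2, h2, rfl⟩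
        rw [hlab2 t t1 h1, hlab2 t t2 h2])
    obtain ⟨r, hr, hr1, hr2⟩ := hJdir (a t) q1.1 q1.2 q2.1 q2.2
    refine ⟨r, hr, ?_⟩
    intro t' htt' hmem
    have h3 : (p (a t) (a t')).1 ≤ r := by
      rcases lt_or_gt_of_ne (hιne t t' htt') with h | h
      · have h4 : p (a t) (a t') ≤ q1 := hq1 _ ⟨t', h, rfl⟩
        exact le_trans h4 hr1
      · have h4 : p (a t) (a t') ≤ q2 := hq2 _ ⟨t', h, rfl⟩
        exact le_trans h4 hr2
    exact hp (a t) (a t') (hane t t' htt') (hJlow (a t') h3 hmem)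
  choose r hr1 hr2 using hr
  obtain ⟨i, j, hij, hle⟩ := hP' r
  exact hr2 i j hij (hJlow (a j) hle (hr1 j))

/-- Positive answer to Q1: for every cardinal `μ` there is a cardinal `i` such that for every
partial order `P`, of any size, without antichains of cardinality `μ`, the poset of ideals of `P`
has no antichain of cardinality `i`. -/
theorem result : ∀ μ : Cardinal.{u}, ∃ i : Cardinal.{u}, ∀ (P : Type u) [PartialOrder P],
    InD μ P → InD i (Ideals P) := by
  intro μ
  by_cases hμ : ℵ₀ ≤ μ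
  · exact ⟨Order.succ (2 ^ (μ ^< μ)), fun P _ hP => main μ hμ P hP⟩
  · refine ⟨Order.succ (2 ^ (ℵ₀ ^< ℵ₀)), fun P _ hP => main ℵ₀ le_rfl P ?_⟩
    rintro ⟨A, hA, hcard⟩
    apply hP
    obtain ⟨B, hB⟩ := le_mk_iff_exists_subset.mp (show μ ≤ #A by
      rw [hcard]; exact (not_le.mp hμ).le)
    exact ⟨B, hA.subset hB.1, hB.2⟩

end Pool.Agent.Results.MP_88803c_co.IdealAntichains
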